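import Pool.Agent.H601R2.SqGap

set_option autoImplicit false

/-!
Many `n` for which an interval `(n^2, n^2 + h]` of record length `h` contains no prime.
-/

open Finset

namespace Pool.Agent.Results.MP_73869e_nt.ManyEmpty

/-- `a h n = π(⌊n^2 + h⌋) - π(n^2)`, the number of primes `p` with `n^2 < p ≤ n^2 + h`. The function
`a(n)` of the question is `a ((log_2 n)^2) n`. -/
noncomputable def a (h : ℝ) (n : ℕ) : ℕ :=
  Nat.primeCounting ⌊(n : ℝ) ^ 2 + h⌋₊ - Nat.primeCounting (n ^ 2)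

/-- `L(x) = log x (log log x)^2 log log log log x / (log log log x)^2` (natural logarithms). -/
noncomputable def L (x : ℝ) : ℝ :=
  Real.log x * (Real.log (Real.log x)) ^ 2 * Real.log (Real.log (Real.log (Real.log x))) /
    (Real.log (Real.log (Real.log x))) ^ 2

/-- There is `c > 0` such that for every `0 < ε ≤ 1` and all large `N` at least `N^(1-ε)` integers
`n` with `N < n ≤ 2N` satisfy: `(n^2, n^2 + c ε L(n)]` contains no prime, and neither does
`[n^2 - c ε L(n), n^2)`. -/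
theorem result : ∃ c : ℝ, 0 < c ∧ ∀ ε : ℝ, 0 < ε → ε ≤ 1 → ∃ N₀ : ℕ, ∀ N : ℕ, N₀ ≤ N →
    (N : ℝ) ^ (1 - ε) ≤ ({n : ℕ | N < n ∧ n ≤ 2 * N ∧ a (c * ε * L n) n = 0 ∧
      ∀ q : ℕ, q.Prime → q < n ^ 2 → (q : ℝ) < (n : ℝ) ^ 2 - c * ε * L n}.ncard : ℝ) := by
  classical
  obtain ⟨c, hc, h⟩ := Pool.Agent.H601R2.SqGap.many
  refine ⟨c, hc, fun ε h1 h2 => ?_⟩
  obtain ⟨N₀, hN₀⟩ := h ε h1 h2
  refine ⟨N₀, fun N hN => (hN₀ N hN).trans ?_⟩
  have hfin : {n : ℕ | N < n ∧ n ≤ 2 * N ∧ a (c * ε * L n) n = 0 ∧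
      ∀ q : ℕ, q.Prime → q < n ^ 2 → (q : ℝ) < (n : ℝ) ^ 2 - c * ε * L n}.Finite :=
    (Set.finite_Iic (2 * N)).subset fun n hn => hn.2.1
  rw [Nat.cast_le, ← Set.ncard_coe_finset]
  refine Set.ncard_le_ncard ?_ hfin
  intro n hn
  rw [Finset.mem_coe, Finset.mem_filter, Finset.mem_Ioc] at hn
  obtain ⟨⟨h3, h4⟩, h5⟩ := hn
  refine ⟨h3, h4, ?_, fun q hq hqn => ?_⟩
  · unfold a
    apply Nat.sub_eq_zero_of_le
    have hle : ∀ m : ℕ, Nat.primeCounting m = ((Finset.range (m + 1)).filter Nat.Prime).card :=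
      fun m => by
        rw [Nat.primeCounting, Nat.primeCounting', Nat.count_eq_card_filter_range]
    rw [hle, hle]
    apply Finset.card_le_card
    intro q hq
    rw [Finset.mem_filter, Finset.mem_range] at hq ⊢
    obtain ⟨h6, h7⟩ := hq
    refine ⟨?_, h7⟩
    by_contra hcon
    push Not at hcon
    have h8 : n ^ 2 < q := by omega
    have h8' : (n : ℝ) ^ 2 < q := by exact_mod_cast h8
    have h9 := h5 q h7
    rw [abs_of_pos (by linarith)] at h9
    have h10 : q ≤ ⌊(n : ℝ) ^ 2 + c * ε * L n⌋₊ := by omega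
    have h11 : (q : ℝ) ≤ (n : ℝ) ^ 2 + c * ε * L n := (Nat.le_floor_iff' h7.pos.ne').1 h10
    have h12 : c * ε * L n < (q : ℝ) - (n : ℝ) ^ 2 := h9
    linarith
  · have h8' : (q : ℝ) < (n : ℝ) ^ 2 := by exact_mod_cast hqn
    have h9 := h5 q hq
    rw [abs_of_neg (by linarith)] at h9
    have h12 : c * ε * L n < -((q : ℝ) - (n : ℝ) ^ 2) := h9
    linarith

end Pool.Agent.Results.MP_73869e_nt.ManyEmpty
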