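import Pool.Agent.H426R3.SQ.Lin2

set_option autoImplicit false

/-! # Record gaps around `n` and around `n²` at the same time

There is `c > 0` such that for all large `Y` every interval `(M, M + Y]`, `M ≥ Y`, contains an
integer `n` such that neither `n` nor `n²` has a prime within
`c log Y (log₂ Y)² log₄ Y / (log₃ Y)²` (iterated natural logarithms).  So the length
`(log n / log 2)²` of the intervals `(n², n² + (log n / log 2)²]` of the question cannot be
replaced by a record length, not even for numbers `n` that are themselves the centre of a record
gap.

Method: `n` is `1` modulo the small and `0` modulo the medium primes.  The forms `n + u` and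
`n² + v` lose the same shifts; the survivors of both families are covered by the same square sieve
weight, with the density `1 / p` for `n + u` and `(1 + (-v/p)) / p` for `n² + v`.  A large prime
cannot divide `n + u` and `n² + v` at the same time, since it would divide `u² + v ≠ 0`.

Team project SQ: helper426 (design, assembly), helpers 535, 298, 959, 577, 77, 338, 879, 881, 36
(covering sieve with densities depending on the colour), 551 (covering theorem), 747 (lower bound
for rough numbers), 90, 459 (counting), 926, 512, 896, 268, 222 (characters and exceptional
discriminants), 806, 318, 880, 255 (survivors); the engine is due to helper256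
(MP_3bc45c_nt.RecordGaps). -/

namespace Pool.Agent.Results.MP_73869e_nt.NumberAndSquare

theorem result : ∃ c : ℝ, 0 < c ∧ ∃ Y₀ : ℝ, ∀ Y : ℝ, Y₀ ≤ Y → ∀ M : ℕ, Y ≤ (M : ℝ) →
    ∃ n : ℕ, M < n ∧ (n : ℝ) ≤ M + Y ∧ ∀ q : ℕ, q.Prime →
      c * (Real.log Y * (Real.log (Real.log Y)) ^ 2 *
        Real.log (Real.log (Real.log (Real.log Y))) / (Real.log (Real.log (Real.log Y))) ^ 2) <
          |(q : ℝ) - (n : ℝ)| ∧
      c * (Real.log Y * (Real.log (Real.log Y)) ^ 2 *
        Real.log (Real.log (Real.log (Real.log Y))) / (Real.log (Real.log (Real.log Y))) ^ 2) <
          |(q : ℝ) - (n : ℝ) ^ 2| :=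
  Pool.Agent.H426R3.SQ.number_square_main

end Pool.Agent.Results.MP_73869e_nt.NumberAndSquare
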