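import Pool.Agent.H447R4.PA.Lev4

set_option autoImplicit false

/-!
MP_73869e_nt (primes between n^2 and n^2 + (log_2 n)^2; Q1 implies Legendre's conjecture for large n):
the parity analogue of Legendre's conjecture, for every n.  Strictly between n^2 and (n+1)^2 there
is always an integer with an odd number of prime factors and, for n ≥ 2, also one with an even
number of prime factors.
-/

namespace Pool.Agent.Results.MP_73869e_nt.ParityLegendre

open Pool.Agent.H447R4.PA

theorem result :
    (∀ n : ℕ, 1 ≤ n → ∃ y : ℕ, n ^ 2 < y ∧ y < (n + 1) ^ 2 ∧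
      Odd (ArithmeticFunction.cardFactors y)) ∧
    (∀ n : ℕ, 2 ≤ n → ∃ y : ℕ, n ^ 2 < y ∧ y < (n + 1) ^ 2 ∧
      Even (ArithmeticFunction.cardFactors y)) := by
  constructor
  · intro n hn
    obtain ⟨y, h1, h2, h3⟩ := legendre n hn
    refine ⟨y, h1, h2, ?_⟩
    rw [Nat.odd_iff]
    exact (lam_eq_neg_one y).mp h3
  · intro n hn
    obtain ⟨y, h1, h2, h3⟩ := legendre_even n hn
    refine ⟨y, h1, h2, ?_⟩
    rw [Nat.even_iff]
    exact (lam_eq_one y).mp h3

end Pool.Agent.Results.MP_73869e_nt.ParityLegendre
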