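import Pool.Agent.H706R2.PS.A3
import Pool.Agent.H706R2.PS.A4
import Pool.Agent.H706R2.PS.A5
import Pool.Agent.H706R2.PS.A6
import Pool.Agent.H706R2.PS.A7
import Pool.Agent.H706R2.PS.A9
import Pool.Agent.H706R2.PS.A10a
import Pool.Agent.H706R2.PS.A10b
import Pool.Agent.H706R2.PS.A11
import Pool.Agent.H706R2.PS.A12
import Pool.Agent.H706R2.PS.A13
import Pool.Agent.H706R2.PS.A15
import Pool.Agent.H706R2.PS.W14
import Pool.Agent.H706R2.PS.T14

/-!
# Primes in the intervals `(α n^c, α n^c + lam log n]` (`c = 2`, `α = 1`: just above the squares)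
-/

set_option autoImplicit false

open Finset Filter MeasureTheory
open Pool.Agent.H706R2.PS

namespace Pool.Agent.Results.MP_73869e_nt.ScaledSquares

lemma law : A15 := a15 (a12 (a10b a3 (a10a (a7 a5 a6) (a9 a4))) a11) a13 w14

open Classical in
lemma lower_bound {A : Set ℕ} {c δ α : ℝ} (hc1 : 1 < c) (hα : 0 < α) (hδ : 0 ≤ δ) {n : ℕ} (hn : 1 ≤ n)
    (h : δ * n ≤ ((Ax A 0 n).card : ℝ)) :
    δ / c * (α ^ (-(1 / c)) * (n : ℝ) ^ (1 / c)) ≤ mA c (AxA A 0 n) 0 α := by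
  have hn' : (1 : ℝ) ≤ n := by exact_mod_cast hn
  have hn0 : (0 : ℝ) < n := by linarith
  have hc0 : 0 < c := by linarith
  have hcard : ((Ax A 0 n).card : ℝ) = ((AxA A 0 n).card : ℝ) := by
    congr 2
  have h1 : ∀ m ∈ AxA A 0 n, (1 / c) * α ^ (-(1 / c)) * (n : ℝ) ^ (1 / c - 1) ≤
      (1 / c) * α ^ (-(1 / c)) * ((m : ℝ) + 0) ^ (1 / c - 1) := by
    intro m hm
    simp only [AxA, mem_filter, mem_Ioc] at hm
    have hm0 : (0 : ℝ) < m := by exact_mod_cast hm.1.1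
    have hmn : (m : ℝ) ≤ n := by exact_mod_cast hm.1.2
    rw [add_zero]
    apply mul_le_mul_of_nonneg_left _ (by positivity)
    apply Real.rpow_le_rpow_of_nonpos hm0 hmn
    rw [sub_nonpos, div_le_one hc0]
    exact hc1.le
  have h2 : ((AxA A 0 n).card : ℝ) * ((1 / c) * α ^ (-(1 / c)) * (n : ℝ) ^ (1 / c - 1)) ≤
      mA c (AxA A 0 n) 0 α := by
    unfold mA
    rw [← nsmul_eq_mul, ← sum_const]
    exact sum_le_sum h1
  refine le_trans ?_ h2
  rw [← hcard]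
  calc δ / c * (α ^ (-(1 / c)) * (n : ℝ) ^ (1 / c)) =
      (δ * n) * ((1 / c) * α ^ (-(1 / c)) * (n : ℝ) ^ (1 / c - 1)) := by
        rw [Real.rpow_sub_one hn0.ne']
        field_simp
    _ ≤ _ := by
        apply mul_le_mul_of_nonneg_right h
        positivity

/-- For every `lam > 0` and `c > 1` there are `δ > 0` and a set `E` of Hausdorff dimension less than `1`
such that for all `α > 0` outside `E` and all large `N`, at least `δ N` of the integers `n ≤ N`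
are such that the interval `(α n^c, α n^c + lam log n]` contains a prime. -/
theorem result : ∀ (lam c : ℝ), 0 < lam → 1 < c → ∃ δ : ℝ, 0 < δ ∧ ∃ E : Set ℝ, dimH E < 1 ∧
    ∀ α : ℝ, 0 < α → α ∉ E → ∃ N0 : ℕ, ∀ N : ℕ, N0 ≤ N →
      δ * N ≤ (({n : ℕ | 1 ≤ n ∧ n ≤ N ∧ ∃ p : ℕ, p.Prime ∧ α * (n : ℝ) ^ c < p ∧
        (p : ℝ) ≤ α * (n : ℝ) ^ c + lam * Real.log n} : Set ℕ).ncard : ℝ) := by
  intro lam c hlam hc
  have hc0 : 0 < c := by linarith
  obtain ⟨κ, hκ, d, hd, h⟩ := law c hc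
  obtain ⟨δ, hδ, n0, hn0⟩ := t14 (lam / (2 * c)) (by positivity)
  set A : Set ℕ := {m : ℕ | ∃ p : ℕ, p.Prime ∧ m < p ∧ (p : ℝ) ≤ m + (lam / (2 * c)) * Real.log m} with hA
  obtain ⟨E, hE, hlaw⟩ := h A
  refine ⟨δ / (8 * c), by positivity, E, lt_of_le_of_lt hE ?_, ?_⟩
  · rw [← ENNReal.ofReal_one]
    exact (ENNReal.ofReal_lt_ofReal_iff one_pos).mpr hd
  intro α hα hαE
  obtain ⟨C, hC⟩ := hlaw α hα hαE
  have hT1 : Tendsto (fun N : ℕ => α * (N : ℝ) ^ c) atTop atTop :=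
    ((tendsto_rpow_atTop hc0).comp tendsto_natCast_atTop_atTop).const_mul_atTop hα
  have hT1' : Tendsto (fun N : ℕ => (N : ℝ) ^ c) atTop atTop :=
    (tendsto_rpow_atTop hc0).comp tendsto_natCast_atTop_atTop
  have hT2 : Tendsto (fun N : ℕ => ⌊α * (N : ℝ) ^ c⌋₊) atTop atTop :=
    tendsto_nat_floor_atTop.comp hT1
  have hT3 : Tendsto (fun N : ℕ => (N : ℝ) ^ κ) atTop atTop :=
    (tendsto_rpow_atTop hκ).comp tendsto_natCast_atTop_atTop
  obtain ⟨n1, hn1⟩ := (hT1'.eventually_ge_atTop α).exists_forall_of_atTop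
  obtain ⟨N1, hN1⟩ := ((hT2.eventually_ge_atTop (max n0 1)).and
    ((hT3.eventually_ge_atTop (8 * c * |C| / δ)).and ((hT1.eventually_ge_atTop 2).and
      (tendsto_natCast_atTop_atTop.eventually_ge_atTop (8 * c * n1 / δ))))).exists_forall_of_atTop
  refine ⟨max N1 1, fun N hN => ?_⟩
  obtain ⟨h1, h2, h3, h4⟩ := hN1 N (le_trans (le_max_left _ _) hN)
  have hN1' : 1 ≤ N := le_trans (le_max_right _ _) hN
  have hNpos : (0 : ℝ) < N := by exact_mod_cast hN1'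
  have hy1 : 1 ≤ ⌊α * (N : ℝ) ^ c⌋₊ := le_trans (le_max_right _ _) h1
  have hlow := lower_bound (A := A) hc hα hδ.le hy1 (hn0 _ (le_trans (le_max_left _ _) h1))
  have hpow := hC N hN1'
  have hfl : (N : ℝ) / 2 ≤ α ^ (-(1 / c)) * ((⌊α * (N : ℝ) ^ c⌋₊ : ℕ) : ℝ) ^ (1 / c) := by
    have e1 : α * (N : ℝ) ^ c / 2 ≤ ((⌊α * (N : ℝ) ^ c⌋₊ : ℕ) : ℝ) := by
      have := Nat.lt_floor_add_one (α * (N : ℝ) ^ c)
      linarith
    have e2 : α * (N / 2 : ℝ) ^ c ≤ α * (N : ℝ) ^ c / 2 := by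
      rw [Real.div_rpow hNpos.le (by norm_num), mul_div_assoc]
      refine mul_le_mul_of_nonneg_left ?_ hα.le
      apply div_le_div_of_nonneg_left (by positivity) (by norm_num)
      calc (2 : ℝ) = 2 ^ (1 : ℝ) := (Real.rpow_one 2).symm
        _ ≤ (2 : ℝ) ^ c := Real.rpow_le_rpow_of_exponent_le (by norm_num) hc.le
    have e3 : (α * (N / 2 : ℝ) ^ c) ^ (1 / c) ≤ ((⌊α * (N : ℝ) ^ c⌋₊ : ℕ) : ℝ) ^ (1 / c) :=
      Real.rpow_le_rpow (by positivity) (e2.trans e1) (by positivity)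
    have e4 : α ^ (-(1 / c)) * (α * (N / 2 : ℝ) ^ c) ^ (1 / c) = N / 2 := by
      rw [Real.mul_rpow hα.le (by positivity), ← mul_assoc, ← Real.rpow_add hα, neg_add_cancel,
        Real.rpow_zero, one_mul, ← Real.rpow_mul (by positivity), mul_one_div_cancel hc0.ne', Real.rpow_one]
    rw [← e4]
    exact mul_le_mul_of_nonneg_left e3 (by positivity)
  have hmain : 4 * (δ / (8 * c) * N) ≤ mA c (AxA A 0 ⌊α * (N : ℝ) ^ c⌋₊) 0 α := by
    refine le_trans ?_ hlow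
    calc 4 * (δ / (8 * c) * N) = δ / c * (N / 2) := by field_simp; norm_num
      _ ≤ _ := mul_le_mul_of_nonneg_left hfl (by positivity)
  have herr : C * (N : ℝ) ^ (1 - κ) ≤ δ / (8 * c) * N := by
    have h5 : |C| ≤ δ / (8 * c) * (N : ℝ) ^ κ := by
      rw [div_le_iff₀ hδ] at h2
      rw [div_mul_eq_mul_div, le_div_iff₀ (by positivity)]
      linarith
    have h6 : (N : ℝ) ^ κ * (N : ℝ) ^ (1 - κ) = N := by
      rw [← Real.rpow_add hNpos]; simp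
    have h7 : 0 ≤ (N : ℝ) ^ (1 - κ) := by positivity
    calc C * (N : ℝ) ^ (1 - κ) ≤ (δ / (8 * c) * (N : ℝ) ^ κ) * (N : ℝ) ^ (1 - κ) :=
          mul_le_mul_of_nonneg_right ((le_abs_self C).trans h5) h7
      _ = δ / (8 * c) * ((N : ℝ) ^ κ * (N : ℝ) ^ (1 - κ)) := by ring
      _ = _ := by rw [h6]
  have hcount : 3 * (δ / (8 * c) * N) ≤ (nA A c α N : ℝ) := by
    have h5 := (abs_le.mp hpow).1
    linarith
  have hsmall : (n1 : ℝ) ≤ δ / (8 * c) * N := by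
    rw [div_le_iff₀ hδ] at h4
    rw [div_mul_eq_mul_div, le_div_iff₀ (by positivity)]
    linarith
  set T : Set ℕ := {n : ℕ | 1 ≤ n ∧ n ≤ N ∧ ∃ p : ℕ, p.Prime ∧ α * (n : ℝ) ^ c < p ∧
        (p : ℝ) ≤ α * (n : ℝ) ^ c + lam * Real.log n} with hT
  have hTfin : T.Finite := (Set.finite_Iic N).subset fun n hn => hn.2.1
  have hsub : ({n : ℕ | 1 ≤ n ∧ n ≤ N ∧ 1 ≤ ⌊α * (n : ℝ) ^ c⌋₊ ∧ ⌊α * (n : ℝ) ^ c⌋₊ ∈ A} : Set ℕ) ⊆
      T ∪ (↑(Finset.range n1) : Set ℕ) := by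
    intro n hn
    obtain ⟨g1, g2, g0, p, g3, g4, g5⟩ := hn
    rcases lt_or_ge n n1 with hlt | hge
    · right
      simpa using hlt
    left
    refine ⟨g1, g2, p, g3, ?_, ?_⟩
    · have : α * (n : ℝ) ^ c < (⌊α * (n : ℝ) ^ c⌋₊ : ℝ) + 1 := Nat.lt_floor_add_one _
      have : ((⌊α * (n : ℝ) ^ c⌋₊ + 1 : ℕ) : ℝ) ≤ p := by exact_mod_cast g4
      push_cast at this
      linarith
    · have hn1r : (1 : ℝ) ≤ n := by exact_mod_cast g1
      have hnp : (0 : ℝ) < n := by linarith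
      have hfl2 : (⌊α * (n : ℝ) ^ c⌋₊ : ℝ) ≤ α * (n : ℝ) ^ c := Nat.floor_le (by positivity)
      have hfl1 : (1 : ℝ) ≤ (⌊α * (n : ℝ) ^ c⌋₊ : ℝ) := by exact_mod_cast g0
      have hlog : Real.log (⌊α * (n : ℝ) ^ c⌋₊ : ℝ) ≤ 2 * c * Real.log n := by
        calc Real.log (⌊α * (n : ℝ) ^ c⌋₊ : ℝ) ≤ Real.log (α * (n : ℝ) ^ c) :=
              Real.log_le_log (by linarith) hfl2
          _ ≤ Real.log ((n : ℝ) ^ c * (n : ℝ) ^ c) :=
              Real.log_le_log (by positivity) (mul_le_mul_of_nonneg_right (hn1 n hge) (by positivity))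
          _ = 2 * c * Real.log n := by
              rw [Real.log_mul (by positivity) (by positivity), Real.log_rpow hnp]; ring
      calc (p : ℝ) ≤ (⌊α * (n : ℝ) ^ c⌋₊ : ℝ) + (lam / (2 * c)) * Real.log (⌊α * (n : ℝ) ^ c⌋₊ : ℝ) := g5
        _ ≤ α * (n : ℝ) ^ c + (lam / (2 * c)) * (2 * c * Real.log n) := by gcongr
        _ = _ := by field_simp
  have hle : (nA A c α N : ℝ) ≤ (T.ncard : ℝ) + n1 := by
    have q1 := Set.ncard_le_ncard hsub (hTfin.union (Finset.finite_toSet _))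
    have q2 := Set.ncard_union_le T (↑(Finset.range n1) : Set ℕ)
    rw [Set.ncard_coe_finset, Finset.card_range] at q2
    have q3 : nA A c α N ≤ T.ncard + n1 := q1.trans q2
    exact_mod_cast q3
  have hpos : 0 ≤ δ / (8 * c) * N := by positivity
  linarith

end Pool.Agent.Results.MP_73869e_nt.ScaledSquares
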